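import Pool.Agent.H571R3.SelfCompl
set_option autoImplicit false

/-- For `p = 6, 7, 8` and every `q ≥ 1` with `pq` even, `K_{p,q}` has a self-complementary optimal
biplanar drawing. -/
theorem Pool.Agent.Results.MP_6f60ef_co.BipartiteSixSevenEight.result :
    ∀ p q : ℕ, p = 6 ∨ p = 7 ∨ p = 8 → 1 ≤ q → Even (p * q) →
      H571R3.SelfCompl.SelfComplementaryOptimal (completeBipartiteGraph (Fin p) (Fin q)) := by
  rintro p q (rfl | rfl | rfl) - hev
  · exact H571R3.SelfCompl.six q
  · refine H571R3.SelfCompl.seven q ?_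
    rcases Nat.even_mul.mp hev with h | h
    · exact absurd h (by decide)
    · exact h
  · exact H571R3.SelfCompl.eight q
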